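import Pool.Agent.helper79.Tw.Defs
import Pool.Agent.helper78.Tw.A
import Pool.Agent.helper38.Tw.B

/-!
Module G of the squad of helper79 (proofs by helper53): two pairs of points on twists of the
Legendre curve.
-/

namespace H53.Tw

open WeierstrassCurve WeierstrassCurve.Affine H48.CN H79.Tw Height H78.Tw Pool.Agent.helper38.Tw

theorem c_ne (l : ℚ) : 1 - l + l ^ 2 ≠ 0 := by nlinarith [sq_nonneg (l - 1 / 2)]

/-- upper bound for the height of the sum, rotation pair -/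
theorem rot_up {l : ℚ} (hE : l * ((-(1 + l)) ^ 2 - 4 * l) ≠ 0) :
    ∃ C : ℝ, ∀ (N t x n : ℚ) (hN : N ≠ 0), x ≠ 0 →
      x * (x - 1) * (x - l) = N * t ^ 2 → 1 - (1 - l) * x = n ^ 2 * (x - l) →
      ∀ e₁ e₂,
      hh N (mk hE hN x t e₁ + mk hE hN ((x - 1) / x) (t * (n / x ^ 2)) e₂) ≤
        2 * logHeight₁ x + C := by
  have hc := c_ne l
  obtain ⟨C1, hC1⟩ := height_rat_le
    ((1 + Polynomial.C l * Polynomial.X ^ 2) * (Polynomial.X - Polynomial.C l) ^ 2)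
    (Polynomial.C (1 - l + l ^ 2) * (Polynomial.X ^ 2 - Polynomial.X + 1) ^ 2) 4
    (by compute_degree) (by compute_degree)
  obtain ⟨C2, hC2⟩ := height_mobius (a := l) (b := 1) (c := 1) (d := 1 - l)
    (by intro h; apply hc; linear_combination -h)
  refine ⟨C1 + 2 * |C2|, ?_⟩
  intro N t x n hN hx hNt hn e₁ e₂
  have he1 : n ^ 2 - n + 1 ≠ 0 := by nlinarith [sq_nonneg (n - 1 / 2)]
  have he2 : n ^ 2 + n + 1 ≠ 0 := by nlinarith [sq_nonneg (n + 1 / 2)]
  have hW : x ^ 2 - x + 1 ≠ 0 := by nlinarith [sq_nonneg (x - 1 / 2)]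
  have hD : n ^ 2 + 1 - l ≠ 0 := by
    intro h
    apply hc
    linear_combination hn + (x - l) * h
  have hxD : x * (n ^ 2 + 1 - l) = 1 + l * n ^ 2 := by linear_combination -hn
  have ha : 1 + l * n ^ 2 ≠ 0 := by rw [← hxD]; exact mul_ne_zero hx hD
  have hne : x ≠ (x - 1) / x := by
    intro h
    rw [eq_div_iff hx] at h
    apply hW
    linear_combination h
  rw [hh_add_of_ne e₁ e₂ hne]
  have hdiff : x - (x - 1) / x = (x ^ 2 - x + 1) / x := by field_simp; ring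
  have step1 : N * ((t - t * (n / x ^ 2)) / (x - (x - 1) / x)) ^ 2 - (-(1 + l)) - x - (x - 1) / x =
      ((x - 1) * (x - l) * (x ^ 2 - n) ^ 2 + (l * x - x ^ 2 + 1) * (x ^ 2 - x + 1) ^ 2) /
        (x * (x ^ 2 - x + 1) ^ 2) := by
    rw [hdiff]
    generalize x ^ 2 - x + 1 = W at hW
    have h1 : N * ((t - t * (n / x ^ 2)) / (W / x)) ^ 2 =
        (N * t ^ 2) * (x ^ 2 - n) ^ 2 / (x ^ 2 * W ^ 2) := by
      field_simp
    rw [h1, ← hNt]
    field_simp
    ring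
  have hx' : x = (1 + l * n ^ 2) / (n ^ 2 + 1 - l) := by rw [eq_div_iff hD]; exact hxD
  have step2 : ((x - 1) * (x - l) * (x ^ 2 - n) ^ 2 + (l * x - x ^ 2 + 1) * (x ^ 2 - x + 1) ^ 2) /
        (x * (x ^ 2 - x + 1) ^ 2) =
      (1 + l * n ^ 2) * (n - l) ^ 2 / ((1 - l + l ^ 2) * (n ^ 2 - n + 1) ^ 2) := by
    have w1 : x - 1 = (l * n ^ 2 + l - n ^ 2) / (n ^ 2 + 1 - l) := by
      rw [hx', div_sub_one hD]; congr 1; ring
    have w2 : x - l = (1 - l + l ^ 2) / (n ^ 2 + 1 - l) := by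
      rw [hx', eq_div_iff hD, sub_mul, div_mul_cancel₀ _ hD]; ring
    have w3 : x ^ 2 - n = ((1 + l * n ^ 2) ^ 2 - n * (n ^ 2 + 1 - l) ^ 2) / (n ^ 2 + 1 - l) ^ 2 := by
      rw [hx', div_pow, eq_div_iff (pow_ne_zero 2 hD), sub_mul,
        div_mul_cancel₀ _ (pow_ne_zero 2 hD)]
    have w4 : x ^ 2 - x + 1 = (1 - l + l ^ 2) * (n ^ 2 - n + 1) * (n ^ 2 + n + 1) /
        (n ^ 2 + 1 - l) ^ 2 := by
      rw [eq_div_iff (pow_ne_zero 2 hD)]
      have : (x ^ 2 - x + 1) * (n ^ 2 + 1 - l) ^ 2 = (x * (n ^ 2 + 1 - l)) ^ 2 -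
          (x * (n ^ 2 + 1 - l)) * (n ^ 2 + 1 - l) + (n ^ 2 + 1 - l) ^ 2 := by ring
      rw [this, hxD]; ring
    have w5 : l * x - x ^ 2 + 1 = (l * (1 + l * n ^ 2) * (n ^ 2 + 1 - l) - (1 + l * n ^ 2) ^ 2 +
        (n ^ 2 + 1 - l) ^ 2) / (n ^ 2 + 1 - l) ^ 2 := by
      rw [eq_div_iff (pow_ne_zero 2 hD)]
      have : (l * x - x ^ 2 + 1) * (n ^ 2 + 1 - l) ^ 2 = l * (x * (n ^ 2 + 1 - l)) *
          (n ^ 2 + 1 - l) - (x * (n ^ 2 + 1 - l)) ^ 2 + (n ^ 2 + 1 - l) ^ 2 := by ring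
      rw [this, hxD]
    rw [w1, w2, w3, w4, w5]
    rw [hx']
    rw [div_eq_div_iff]
    · field_simp
      ring
    · exact mul_ne_zero (div_ne_zero ha hD) (pow_ne_zero 2 (div_ne_zero
        (mul_ne_zero (mul_ne_zero hc he1) he2) (pow_ne_zero 2 hD)))
    · exact mul_ne_zero hc (pow_ne_zero 2 he1)
  rw [step1, step2]
  have h1 := hC1 n (by
    simp only [Polynomial.eval_mul, Polynomial.eval_C, Polynomial.eval_pow, Polynomial.eval_add,
      Polynomial.eval_sub, Polynomial.eval_X, Polynomial.eval_one]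
    exact mul_ne_zero hc (pow_ne_zero 2 he1))
  simp only [Polynomial.eval_mul, Polynomial.eval_C, Polynomial.eval_pow, Polynomial.eval_add,
      Polynomial.eval_sub, Polynomial.eval_X, Polynomial.eval_one] at h1
  have h2 := hC2 (n ^ 2) (by intro h; apply hD; linear_combination h)
  have h3 : (l * n ^ 2 + 1) / (1 * n ^ 2 + (1 - l)) = x := by
    rw [hx']; congr 1 <;> ring
  rw [h3, logHeight₁_pow] at h2
  have h4 := (abs_le.1 h2).1
  have h5 := le_abs_self C2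
  push_cast at *
  linarith

set_option linter.unusedVariables false in
theorem pair_rot {l : ℚ} (h0 : l ≠ 0) (h1 : l ≠ 1) (hE : l * ((-(1 + l)) ^ 2 - 4 * l) ≠ 0) :
    ∃ C H : ℝ, ∀ (N t x n : ℚ) (hN : N ≠ 0), x ≠ 0 → t ≠ 0 →
      x * (x - 1) * (x - l) = N * t ^ 2 → 1 - (1 - l) * x = n ^ 2 * (x - l) →
      ∀ e₁ e₂, H < logHeight₁ x →
      |hh N (mk hE hN x t e₁ + mk hE hN ((x - 1) / x) (t * (n / x ^ 2)) e₂) -
        hh N (mk hE hN x t e₁ - mk hE hN ((x - 1) / x) (t * (n / x ^ 2)) e₂)| ≤ C := by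
  obtain ⟨C1, hC1⟩ := rot_up hE
  obtain ⟨CB, hCB⟩ := parallelogram hE
  obtain ⟨CM, hCM⟩ := height_mobius (a := 1) (b := -1) (c := 1) (d := 0) (by norm_num)
  refine ⟨2 * C1 + 2 * CM + CB, 0, ?_⟩
  intro N t x n hN hx ht hNt hn e₁ e₂ _
  have up1 := hC1 N t x n hN hx hNt hn e₁ e₂
  have e₂' : N * (t * (-n / x ^ 2)) ^ 2 =
      (x - 1) / x * (((x - 1) / x) ^ 2 + -(1 + l) * ((x - 1) / x) + l) := by
    rw [← e₂]; ring
  have up2 := hC1 N t x (-n) hN hx hNt (by rw [neg_sq]; exact hn) e₁ e₂'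
  have hneg : -mk hE hN ((x - 1) / x) (t * (n / x ^ 2)) e₂ =
      mk hE hN ((x - 1) / x) (t * (-n / x ^ 2)) e₂' := by
    rw [neg_mk]
    exact mk_inj.2 ⟨rfl, by ring⟩
  rw [← hneg, ← sub_eq_add_neg] at up2
  have par := hCB N hN (mk hE hN x t e₁) (mk hE hN ((x - 1) / x) (t * (n / x ^ 2)) e₂)
  rw [hh_mk, hh_mk] at par
  have mo := hCM x (by simpa using hx)
  have h3 : (1 * x + -1) / (1 * x + 0) = (x - 1) / x := by congr 1 <;> ring
  rw [h3] at mo
  have h4 := (abs_le.1 mo).1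
  have h5 := (abs_le.1 par).1
  rw [abs_le]
  constructor <;> linarith

/-- upper bound for the height of the sum, second pair -/
theorem M2_up {l u q : ℚ} (hu : u = 1 - l) (hq : q = 1 - l + l ^ 2) (h0 : l ≠ 0) (h1 : l ≠ 1)
    (hE : l * ((-(1 + l)) ^ 2 - 4 * l) ≠ 0) :
    ∃ C : ℝ, ∀ (N t x m : ℚ) (hN : N ≠ 0), x ≠ 0 → x ≠ 1 → u * x - l ≠ 0 →
      x * (x - 1) * (x - l) = N * t ^ 2 → q * x - l = l * u * m ^ 2 →
      ∀ e₁ e₂,
      hh N (mk hE hN x t e₁ +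
          mk hE hN ((x - l) / (u * x)) (t * (l * m / (u * x ^ 2))) e₂) ≤
        2 * logHeight₁ x + C := by
  have hc := c_ne l
  have hu0 : u ≠ 0 := by rw [hu]; exact sub_ne_zero.2 (Ne.symm h1)
  rw [← hq] at hc
  obtain ⟨C1, hC1⟩ := height_rat_le
    (Polynomial.C l * (1 + Polynomial.C u * Polynomial.X ^ 2) *
      (Polynomial.X - Polynomial.C u) ^ 2)
    ((Polynomial.C l * Polynomial.X ^ 2 - Polynomial.C u) *
      (Polynomial.C u * Polynomial.X + Polynomial.C l) ^ 2) 4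
    (by compute_degree) (by compute_degree)
  obtain ⟨C2, hC2⟩ := height_mobius (a := l * u) (b := l) (c := 0) (d := q)
    (by simpa using mul_ne_zero (mul_ne_zero h0 hu0) hc)
  refine ⟨C1 + 2 * |C2|, ?_⟩
  intro N t x m hN hx hx1 hxl hNt hm e₁ e₂
  have hxq : x * q = l * (1 + u * m ^ 2) := by linear_combination hm
  have hx' : x = l * (1 + u * m ^ 2) / q := by rw [eq_div_iff hc]; exact hxq
  have ha : 1 + u * m ^ 2 ≠ 0 := by
    intro h
    rw [h, mul_zero] at hxq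
    exact (mul_ne_zero hx hc) hxq
  have w1 : x - 1 = u * (l * m ^ 2 - u) / q := by
    rw [eq_div_iff hc, sub_mul, hxq, hq, hu]; ring
  have w2 : u * x - l = l * (u * m - l) * (u * m + l) / q := by
    rw [eq_div_iff hc]
    have : (u * x - l) * q = u * (x * q) - l * q := by ring
    rw [this, hxq, hq, hu]; ring
  have w3 : x - l = l * u * (l + m ^ 2) / q := by
    rw [eq_div_iff hc, sub_mul, hxq, hq, hu]; ring
  have hlm : l * m ^ 2 - u ≠ 0 := by
    intro h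
    apply hx1
    rw [h, mul_zero, zero_div] at w1
    linear_combination w1
  have hum1 : u * m - l ≠ 0 := by
    intro h
    apply hxl
    rw [w2, h]; ring
  have hum2 : u * m + l ≠ 0 := by
    intro h
    apply hxl
    rw [w2, h]; ring
  have hfac : u * x ^ 2 - x + l = (x - 1) * (u * x - l) := by rw [hu]; ring
  have hx1' : x - 1 ≠ 0 := sub_ne_zero.2 hx1
  have hne : x ≠ (x - l) / (u * x) := by
    intro h
    rw [eq_div_iff (mul_ne_zero hu0 hx)] at h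
    apply mul_ne_zero hx1' hxl
    rw [← hfac]
    linear_combination h
  rw [hh_add_of_ne e₁ e₂ hne]
  have hdiff : x - (x - l) / (u * x) = (x - 1) * (u * x - l) / (u * x) := by
    rw [← hfac]; field_simp; ring
  have step1 : N * ((t - t * (l * m / (u * x ^ 2))) / (x - (x - l) / (u * x))) ^ 2 -
        (-(1 + l)) - x - (x - l) / (u * x) =
      (u * (x - l) * (u * x ^ 2 - l * m) ^ 2 +
        ((1 + l) * u * x - u * x ^ 2 - x + l) * ((x - 1) * (u * x - l) ^ 2)) /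
        (u * x * ((x - 1) * (u * x - l) ^ 2)) := by
    rw [hdiff]
    have h1 : N * ((t - t * (l * m / (u * x ^ 2))) / ((x - 1) * (u * x - l) / (u * x))) ^ 2 =
        (N * t ^ 2) * (u * x ^ 2 - l * m) ^ 2 / (x ^ 2 * ((x - 1) * (u * x - l)) ^ 2) := by
      field_simp
    rw [h1, ← hNt]
    generalize x - 1 = Y at hx1'
    generalize u * x - l = Z at hxl
    field_simp
    ring
  have step2 : (u * (x - l) * (u * x ^ 2 - l * m) ^ 2 +
        ((1 + l) * u * x - u * x ^ 2 - x + l) * ((x - 1) * (u * x - l) ^ 2)) /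
        (u * x * ((x - 1) * (u * x - l) ^ 2)) =
      l * (1 + u * m ^ 2) * (m - u) ^ 2 / ((l * m ^ 2 - u) * (u * m + l) ^ 2) := by
    have w4 : u * x ^ 2 - l * m = l * (u * l * (1 + u * m ^ 2) ^ 2 - m * q ^ 2) / q ^ 2 := by
      rw [eq_div_iff (pow_ne_zero 2 hc)]
      have : (u * x ^ 2 - l * m) * q ^ 2 = u * (x * q) ^ 2 - l * m * q ^ 2 := by ring
      rw [this, hxq]; ring
    have w5 : (1 + l) * u * x - u * x ^ 2 - x + l = ((1 + l) * u * (l * (1 + u * m ^ 2)) * q -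
        u * (l * (1 + u * m ^ 2)) ^ 2 - l * (1 + u * m ^ 2) * q + l * q ^ 2) / q ^ 2 := by
      rw [eq_div_iff (pow_ne_zero 2 hc)]
      have : ((1 + l) * u * x - u * x ^ 2 - x + l) * q ^ 2 = (1 + l) * u * (x * q) * q -
        u * (x * q) ^ 2 - (x * q) * q + l * q ^ 2 := by ring
      rw [this, hxq]
    have hprod : (u * m - l) * (u * m + l) * (l * m ^ 2 - u) ≠ 0 :=
      mul_ne_zero (mul_ne_zero hum1 hum2) hlm
    rw [w1, w2, w3, w4, w5, hx']
    rw [div_eq_div_iff]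
    · field_simp
      rw [hq, hu]
      ring
    · exact mul_ne_zero (mul_ne_zero hu0 (div_ne_zero (mul_ne_zero h0 ha) hc))
        (mul_ne_zero (div_ne_zero (mul_ne_zero hu0 hlm) hc) (pow_ne_zero 2 (div_ne_zero
          (mul_ne_zero (mul_ne_zero h0 hum1) hum2) hc)))
    · exact mul_ne_zero hlm (pow_ne_zero 2 hum2)
  rw [step1, step2]
  have h1 := hC1 m (by
    simp only [Polynomial.eval_mul, Polynomial.eval_C, Polynomial.eval_pow, Polynomial.eval_add,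
      Polynomial.eval_sub, Polynomial.eval_X]
    exact mul_ne_zero hlm (pow_ne_zero 2 hum2))
  simp only [Polynomial.eval_mul, Polynomial.eval_C, Polynomial.eval_pow, Polynomial.eval_add,
      Polynomial.eval_sub, Polynomial.eval_X, Polynomial.eval_one] at h1
  have h2 := hC2 (m ^ 2) (by simpa using hc)
  have h3 : (l * u * m ^ 2 + l) / (0 * m ^ 2 + q) = x := by
    rw [hx']; congr 1 <;> ring
  rw [h3, logHeight₁_pow] at h2
  have h4 := (abs_le.1 h2).1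
  have h5 := le_abs_self C2
  push_cast at *
  linarith

theorem pair_M2 {l : ℚ} (h0 : l ≠ 0) (h1 : l ≠ 1) (hE : l * ((-(1 + l)) ^ 2 - 4 * l) ≠ 0) :
    ∃ C H : ℝ, ∀ (N t x m : ℚ) (hN : N ≠ 0), x ≠ 0 → t ≠ 0 →
      x * (x - 1) * (x - l) = N * t ^ 2 → (1 - l + l ^ 2) * x - l = l * (1 - l) * m ^ 2 →
      ∀ e₁ e₂, H < logHeight₁ x →
      |hh N (mk hE hN x t e₁ +
          mk hE hN ((x - l) / ((1 - l) * x)) (t * (l * m / ((1 - l) * x ^ 2))) e₂) -
        hh N (mk hE hN x t e₁ -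
          mk hE hN ((x - l) / ((1 - l) * x)) (t * (l * m / ((1 - l) * x ^ 2))) e₂)| ≤ C := by
  have h1l : (1 : ℚ) - l ≠ 0 := sub_ne_zero.2 (Ne.symm h1)
  obtain ⟨C1, hC1⟩ := M2_up rfl rfl h0 h1 hE
  obtain ⟨CB, hCB⟩ := parallelogram hE
  obtain ⟨CM, hCM⟩ := height_mobius (a := 1) (b := -l) (c := 1 - l) (d := 0)
    (by simpa using mul_ne_zero h0 h1l)
  refine ⟨2 * C1 + 2 * CM + CB, max (logHeight₁ (1 : ℚ)) (logHeight₁ (l / (1 - l))), ?_⟩
  intro N t x m hN hx ht hNt hm e₁ e₂ hH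
  have hx1 : x ≠ 1 := by
    rintro rfl
    exact absurd hH (not_lt.2 (le_max_left _ _))
  have hxl : (1 - l) * x - l ≠ 0 := by
    intro h
    have : x = l / (1 - l) := by rw [eq_div_iff h1l]; linear_combination h
    rw [this] at hH
    exact absurd hH (not_lt.2 (le_max_right _ _))
  have up1 := hC1 N t x m hN hx hx1 hxl hNt hm e₁ e₂
  have e₂' : N * (t * (l * -m / ((1 - l) * x ^ 2))) ^ 2 =
      (x - l) / ((1 - l) * x) * (((x - l) / ((1 - l) * x)) ^ 2 +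
        -(1 + l) * ((x - l) / ((1 - l) * x)) + l) := by
    rw [← e₂]; ring
  have up2 := hC1 N t x (-m) hN hx hx1 hxl hNt (by rw [neg_sq]; exact hm) e₁ e₂'
  have hneg : -mk hE hN ((x - l) / ((1 - l) * x)) (t * (l * m / ((1 - l) * x ^ 2))) e₂ =
      mk hE hN ((x - l) / ((1 - l) * x)) (t * (l * -m / ((1 - l) * x ^ 2))) e₂' := by
    rw [neg_mk]
    exact mk_inj.2 ⟨rfl, by ring⟩
  rw [← hneg, ← sub_eq_add_neg] at up2
  have par := hCB N hN (mk hE hN x t e₁)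
    (mk hE hN ((x - l) / ((1 - l) * x)) (t * (l * m / ((1 - l) * x ^ 2))) e₂)
  rw [hh_mk, hh_mk] at par
  have mo := hCM x (by simpa using mul_ne_zero h1l hx)
  have h3 : (1 * x + -l) / ((1 - l) * x + 0) = (x - l) / ((1 - l) * x) := by congr 1 <;> ring
  rw [h3] at mo
  have h4 := (abs_le.1 mo).1
  have h5 := (abs_le.1 par).1
  rw [abs_le]
  constructor <;> linarith

end H53.Tw
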