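import Pool.Agent.helper79.Tw.Defs
import Pool.Agent.helper78.Tw.A

/-!
Module H of the squad of helper79 (proofs by helper53): the height of the sum of the second and the
third point.
-/

namespace H53.Tw

open WeierstrassCurve WeierstrassCurve.Affine H48.CN H79.Tw Height H78.Tw

/-- The quadratic equation of the `x`-coordinate of a sum of two points. -/
theorem sum_quad {A B N x₁ y₁ x₂ y₂ : ℚ} (e₁ : N * y₁ ^ 2 = x₁ * (x₁ ^ 2 + A * x₁ + B))
    (e₂ : N * y₂ ^ 2 = x₂ * (x₂ ^ 2 + A * x₂ + B)) (h : x₁ ≠ x₂) {X : ℚ}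
    (hX : X = N * ((y₁ - y₂) / (x₁ - x₂)) ^ 2 - A - x₁ - x₂) :
    (x₁ - x₂) ^ 2 * X ^ 2 - (2 * (x₁ + x₂) * (x₁ * x₂ + B) + 4 * A * x₁ * x₂) * X +
      (x₁ * x₂ - B) ^ 2 = 0 := by
  have hD : x₁ - x₂ ≠ 0 := sub_ne_zero.2 h
  have hD2 : (x₁ - x₂) ^ 2 ≠ 0 := pow_ne_zero 2 hD
  obtain ⟨q, hq⟩ : ∃ q, q = (y₁ - y₂) / (x₁ - x₂) := ⟨_, rfl⟩
  have hqD : q * (x₁ - x₂) = y₁ - y₂ := by rw [hq]; field_simp
  rw [← hq] at hX
  have h1 : (x₁ - x₂) ^ 2 * X = N * (y₁ - y₂) ^ 2 - (A + x₁ + x₂) * (x₁ - x₂) ^ 2 := by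
    rw [hX, ← hqD]; ring
  have h2 : (x₁ - x₂) ^ 2 * X - ((x₁ + x₂) * (x₁ * x₂ + B) + 2 * A * x₁ * x₂) =
      -2 * (N * y₁ * y₂) := by
    rw [h1]; linear_combination e₁ + e₂
  have h3 : ((x₁ - x₂) ^ 2 * X - ((x₁ + x₂) * (x₁ * x₂ + B) + 2 * A * x₁ * x₂)) ^ 2 =
      4 * (x₁ * (x₁ ^ 2 + A * x₁ + B)) * (x₂ * (x₂ ^ 2 + A * x₂ + B)) := by
    rw [h2, ← e₁, ← e₂]; ring
  apply mul_left_cancel₀ hD2
  rw [mul_zero]
  linear_combination h3

theorem sum_ge {l : ℚ} (h0 : l ≠ 0) (h1 : l ≠ 1) (hE : l * ((-(1 + l)) ^ 2 - 4 * l) ≠ 0) :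
    ∃ C : ℝ, ∀ (N x y₂ y₃ : ℚ) (hN : N ≠ 0), x ≠ 0 → ∀ e₂ e₃,
      logHeight₁ x / 2 - C ≤
        hh N (mk hE hN ((x - l) / ((1 - l) * x)) y₂ e₂ + mk hE hN ((x - 1) / x) y₃ e₃) := by
  have h1l : (1 : ℚ) - l ≠ 0 := sub_ne_zero.2 (Ne.symm h1)
  obtain ⟨r, hr⟩ : ∃ r, r = (1 - l) / l := ⟨_, rfl⟩
  have hr0 : r ≠ 0 := by rw [hr]; exact div_ne_zero h1l h0
  obtain ⟨C2, hC2⟩ := height_mobius (a := 1) (b := -l) (c := 1 - l) (d := 0)
    (by simpa using mul_ne_zero h0 h1l)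
  let P : Fin 5 → Polynomial ℚ := ![
    Polynomial.C (r ^ 2) * Polynomial.X ^ 2 + Polynomial.C (2 * r * l) * Polynomial.X +
      Polynomial.C (l ^ 2),
    Polynomial.C (2 * r * (1 - r)) * Polynomial.X ^ 2 +
      Polynomial.C (-(2 * (1 + r) * l + 2 * r ^ 2 + 4 * (1 + l) * r)) * Polynomial.X +
      Polynomial.C (2 * r * l),
    Polynomial.C ((1 - r) ^ 2) * Polynomial.X ^ 2 +
      Polynomial.C (2 * r * (1 + r) + 2 * r ^ 2 + 4 * (1 + l) * r) * Polynomial.X +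
      Polynomial.C (r ^ 2 - 2 * r * l),
    Polynomial.C 0 * Polynomial.X ^ 2 + Polynomial.C (-(2 * r * (1 + r))) * Polynomial.X +
      Polynomial.C (-(2 * r ^ 2)),
    Polynomial.C 0 * Polynomial.X ^ 2 + Polynomial.C 0 * Polynomial.X + Polynomial.C (r ^ 2)]
  have hP : ∀ j, (P j).natDegree ≤ 2 := by
    intro j
    fin_cases j <;> exact Polynomial.natDegree_quadratic_le
  obtain ⟨C1, hC1⟩ := height_root_le 4 2 P hP
  refine ⟨(|C1| + |C2|) / 2 + logHeight₁ ((2 * l - 1) / l) / 2, ?_⟩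
  intro N x y₂ y₃ hN hx e₂ e₃
  have hhn : ∀ P : (TW (-(1 + l)) l N).Point, 0 ≤ hh N P := by
    intro P
    rcases P with _ | ⟨a, b, h⟩
    · exact le_rfl
    · exact zero_le_logHeight₁ _
  have hn : 0 ≤ logHeight₁ ((2 * l - 1) / l) := zero_le_logHeight₁ _
  have ha1 := abs_nonneg C1
  have ha2 := abs_nonneg C2
  by_cases hu : (x - l) / ((1 - l) * x) = (x - 1) / x
  · have hxx : x = (2 * l - 1) / l := by
      rw [div_eq_div_iff (mul_ne_zero h1l hx) hx] at hu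
      have : x * (l * x - (2 * l - 1)) = 0 := by linear_combination hu
      rcases mul_eq_zero.1 this with h | h
      · exact absurd h hx
      · rw [eq_div_iff h0]; linear_combination h
    have := hhn (mk hE hN ((x - l) / ((1 - l) * x)) y₂ e₂ + mk hE hN ((x - 1) / x) y₃ e₃)
    have h2 : logHeight₁ x = logHeight₁ ((2 * l - 1) / l) := by rw [hxx]
    rw [h2]
    linarith
  · rw [hh_add_of_ne e₂ e₃ hu]
    set u := (x - l) / ((1 - l) * x) with hudef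
    have hx3 : (x - 1) / x = r * (u - 1) := by
      rw [hudef, hr]; field_simp; ring
    set X := N * ((y₂ - y₃) / (u - (x - 1) / x)) ^ 2 - (-(1 + l)) - u - (x - 1) / x with hX
    have key := sum_quad e₂ e₃ hu hX
    have hroot : (∑ j : Fin (4 + 1), (P j).eval X * u ^ (j : ℕ)) = 0 := by
      rw [hx3] at key
      have h5 : (∑ j : Fin (4 + 1), (P j).eval X * u ^ (j : ℕ)) =
          (r ^ 2 * X ^ 2 + 2 * r * l * X + l ^ 2) +
          (2 * r * (1 - r) * X ^ 2 + -(2 * (1 + r) * l + 2 * r ^ 2 + 4 * (1 + l) * r) * X +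
            2 * r * l) * u +
          ((1 - r) ^ 2 * X ^ 2 + (2 * r * (1 + r) + 2 * r ^ 2 + 4 * (1 + l) * r) * X +
            (r ^ 2 - 2 * r * l)) * u ^ 2 +
          (-(2 * r * (1 + r)) * X + -(2 * r ^ 2)) * u ^ 3 + r ^ 2 * u ^ 4 := by
        rw [Fin.sum_univ_five]
        simp [P]
      rw [h5]
      linear_combination key
    have hlast : (P (Fin.last 4)).eval X ≠ 0 := by
      have : (P (Fin.last 4)).eval X = r ^ 2 := by
        simp [P, Fin.last]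
      rw [this]
      exact pow_ne_zero 2 hr0
    have h3 := hC1 u X hroot hlast
    have h4 := hC2 x (by simpa using mul_ne_zero h1l hx)
    have h6 : (1 * x + -l) / ((1 - l) * x + 0) = u := by rw [hudef]; ring
    rw [h6] at h4
    have h7 := (abs_le.1 h4).1
    have h8 := le_abs_self C1
    have h9 := le_abs_self C2
    have h10 : ((2 : ℕ) : ℝ) = 2 := by norm_num
    rw [h10] at h3
    linarith

end H53.Tw
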